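import Pool.Agent.Helper94.PP.GoalsA1
import Pool.Agent.Helper32.PP.EXP
import Pool.Agent.Helper95.PP.CNT

/-!
# Packet A1_UNB: exponential sums
-/

namespace Pool.Agent.Helper60.PP

open NumberField Module IsDedekindDomain
open Pool.Agent.Helper94.PP
open Pool.Agent.Helper51.PP (RC UniB)

theorem Wt.mono {a A A' : ℝ} {w : ℝ → ℝ} (h : Wt a A w) (hA : A ≤ A') : Wt a A' w where
  bd x hx := (h.bd x hx).trans (mul_le_mul_of_nonneg_right hA
    (Real.rpow_nonneg (by linarith) _))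
  lip x y hx hxy := (h.lip x y hx hxy).trans (mul_le_mul_of_nonneg_right
    (mul_le_mul_of_nonneg_right hA (Real.rpow_nonneg (by linarith) _))
    (div_nonneg (by linarith) (by linarith)))

theorem goalUNB (h1 : A1_SUM) (h2 : A1_WTE) : A1_UNB := by
  intro F _ _ _
  have hn : 0 < finrank ℚ F := finrank_pos
  obtain ⟨n, hn'⟩ : ∃ n : ℝ, n = finrank ℚ F := ⟨_, rfl⟩
  have hn1 : (1 : ℝ) ≤ n := by rw [hn']; exact_mod_cast hn
  have hn0 : 0 < n := by linarith
  obtain ⟨c, hc⟩ : ∃ c : ℝ, c = 1 / (2 * n) := ⟨_, rfl⟩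
  have hc0 : 0 < c := by rw [hc]; positivity
  have hc1 : c ≤ 1 := by
    rw [hc, div_le_one (by positivity)]
    linarith
  have hcn : c < 1 / n := by
    rw [hc]
    exact one_div_lt_one_div_of_lt hn0 (by linarith)
  obtain ⟨C, E, hC, H⟩ := h1 F (1 - c) (by rw [← hn']; linarith) (by linarith)
  have hexp := (Pool.Agent.Helper32.PP.a2_exp Pool.Agent.Helper95.PP.a2_cnt F).1
  refine ⟨c, max 1 (max C E), hc0, hc1, le_max_left _ _, fun 𝔪 χ hχ hnt Z hZ => ?_⟩
  have hZ0 : 0 < Z := by linarith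
  have h3 := H 𝔪 χ hχ hnt (Z ^ (1 - c)) (fun x => Real.exp (-x / Z)) (fun N hN => by
      have hN0 : 0 < N := by linarith
      have h4 := h2 (1 - c) (Z * N) (by linarith) (by linarith) (by positivity)
      have h5 : (fun x : ℝ => Real.exp (-x / (Z * N))) = fun x => Real.exp (-(x / N) / Z) := by
        funext x
        congr 1
        field_simp
      rw [h5] at h4
      refine Wt.mono h4 ?_
      rw [Real.mul_rpow hZ0.le hN0.le]
      refine mul_le_mul_of_nonneg_left ?_ (Real.rpow_nonneg hZ0.le _)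
      rw [← Real.rpow_natCast]
      exact Real.rpow_le_rpow_of_exponent_le hN (by push_cast; linarith)) (fun N hN => by
      have hN0 : 0 < N := by linarith
      have h4 := (hexp (Z * N) (by positivity)).comp_injective
        (Subtype.val_injective (p := fun J : Ideal (𝓞 F) => J ≠ ⊥))
      refine h4.congr fun J => ?_
      rw [abs_of_pos (Real.exp_pos _)]
      show Real.exp (-(Ideal.absNorm J.1 : ℝ) / (Z * N)) = _
      congr 1
      field_simp)
  have h6 : ∑' I : Ideal (𝓞 F), χ I * (Real.exp (-(Ideal.absNorm I : ℝ) / Z) : ℂ) =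
      ∑' J : {J : Ideal (𝓞 F) // J ≠ ⊥},
        χ J.1 * (Real.exp (-(Ideal.absNorm J.1 : ℝ) / Z) : ℂ) := by
    refine (Function.Injective.tsum_eq (g := (Subtype.val : {J : Ideal (𝓞 F) // J ≠ ⊥} → _))
      Subtype.val_injective ?_).symm
    intro I hI
    rw [Subtype.range_coe_subtype]
    show I ≠ ⊥
    rintro rfl
    apply hI
    show χ ⊥ * _ = 0
    rw [hχ.zero, zero_mul]
  rw [h6]
  refine h3.trans ?_
  have hN1 : (1 : ℝ) ≤ Ideal.absNorm 𝔪 := by
    have : Ideal.absNorm 𝔪 ≠ 0 := by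
      rw [Ne, Ideal.absNorm_eq_zero_iff]
      exact hχ.ne
    exact_mod_cast Nat.one_le_iff_ne_zero.2 this
  have h7 : (Ideal.absNorm 𝔪 : ℝ) ^ E ≤ (Ideal.absNorm 𝔪 : ℝ) ^ (max 1 (max C (E : ℝ))) := by
    rw [← Real.rpow_natCast]
    exact Real.rpow_le_rpow_of_exponent_le hN1 ((le_max_right _ _).trans (le_max_right _ _))
  have h8 : C ≤ max 1 (max C (E : ℝ)) := (le_max_left _ _).trans (le_max_right _ _)
  have h9 : 0 ≤ Z ^ (1 - c) := Real.rpow_nonneg hZ0.le _
  calc C * Z ^ (1 - c) * (Ideal.absNorm 𝔪 : ℝ) ^ E =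
      C * (Ideal.absNorm 𝔪 : ℝ) ^ E * Z ^ (1 - c) := by ring
    _ ≤ max 1 (max C (E : ℝ)) * (Ideal.absNorm 𝔪 : ℝ) ^ (max 1 (max C (E : ℝ))) * Z ^ (1 - c) :=
        mul_le_mul_of_nonneg_right (mul_le_mul h8 h7 (by positivity) (hC.trans h8)) h9

end Pool.Agent.Helper60.PP
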